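import Pool.Agent.T9h90.SP.Fin
import Pool.Agent.T9h73.SP.Cp
import Pool.Agent.T9h73.SP.Cl
import Pool.Agent.T9h12.SP.Du
import Pool.Agent.T9h12.SP.Nc
import Pool.Agent.T9h82.SP.Cs
import Pool.Agent.T9h32.SP.Sq
import Pool.Agent.T9h8.SP.Rg
import Pool.Agent.T9h18.SP.Hm
import Pool.Agent.T9h71.SP.Tr
import Pool.Agent.T9h70.SP.Tv
import Pool.Agent.T9h61.SP.Lt
import Pool.Agent.T9h22.SP.Di

set_option autoImplicit false

/-! Assembly, with the linear order part `S_AD` as hypothesis. -/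

namespace Pool.Agent.T9h90.SP

open Pool.Agent.Helper617.RM

universe u

theorem hHM : S_HM.{u} := Pool.Agent.T9h18.SP.hm Pool.Agent.T9h32.SP.sq Pool.Agent.T9h8.SP.rg

theorem hSB : S_SB.{u} := Pool.Agent.T9h8.SP.sb Pool.Agent.T9h32.SP.sq Pool.Agent.T9h8.SP.rg

theorem hTR : S_TR.{u} := Pool.Agent.T9h71.SP.tr Pool.Agent.T9h32.SP.sq Pool.Agent.T9h8.SP.rg

theorem hNC : S_NC.{u} := Pool.Agent.T9h12.SP.nc

theorem hCL : S_CL.{u} := Pool.Agent.T9h73.SP.cl Pool.Agent.T9h73.SP.cp hNC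

theorem hTV : S_TV.{u} := Pool.Agent.T9h70.SP.tv Pool.Agent.T9h73.SP.cp

theorem hLT : S_LT.{u} :=
  Pool.Agent.T9h61.SP.lt Pool.Agent.T9h73.SP.cp hNC Pool.Agent.T9h82.SP.cs hTV hSB hHM

theorem hDI : S_DI.{u} := Pool.Agent.T9h22.SP.di hCL hHM hLT

theorem main_class (had : S_AD.{u}) (N : L2Structure.{u}) [IsModelRCA0 N] (c : Bool) (p : Sep)
    (hg : Good c p) (hp : RTp N p) : RT22 N :=
  fn Pool.Agent.T9h12.SP.du hHM hCL hTR had hDI N c p hg hp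

end Pool.Agent.T9h90.SP
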