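import Pool.Agent.T9h90.SP.Perm
import Pool.Agent.Helper617.RM.Orders

set_option autoImplicit false

/-!
The principles `RT^2_2(p)`, `RT^2_2` and `ADS` in a structure `N` for the language of second-order
arithmetic.  `N.lt` is the order of `N`, `RelIn N R` and `FunIn N g` say that the relation `R` and
the function `g` exist in `N`, `IsFin N X` that `X` is bounded.
-/

namespace Pool.Agent.T9h90.SP.Stmt

open Pool.Agent.Helper617.RM

universe u

variable (N : L2Structure.{u})

/-- `x 0 < x 1 < ...` are elements of `H` which realise the pattern of the permutation `p`: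
the pair `i < j` has colour 1 (`true`) iff `p i < p j` -/
def Copy (f : N.M → N.M → Bool) (H : Set N.M) (p : Sep) (x : ℕ → N.M) : Prop :=
  (∀ i, i < p.size → x i ∈ H) ∧
    ∀ i j, i < j → j < p.size → N.lt (x i) (x j) ∧ f (x i) (x j) = decide (p.val i < p.val j)

/-- the colouring exists in the structure -/
def ColIn (f : N.M → N.M → Bool) : Prop := RelIn N (fun x y => f x y = true)

/-- `RT^2_2(p)`: every colouring of pairs has an infinite set without copy of `p` -/
def RTp (p : Sep) : Prop := ∀ f : N.M → N.M → Bool, ColIn N f →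
  ∃ H ∈ N.Sets, ¬ IsFin N H ∧ ¬ ∃ x : ℕ → N.M, Copy N f H p x

/-- `RT^2_2`: every colouring of pairs has an infinite homogeneous set -/
def RT22 : Prop := ∀ f : N.M → N.M → Bool, ColIn N f →
  ∃ H ∈ N.Sets, ¬ IsFin N H ∧ ∃ c, ∀ x ∈ H, ∀ y ∈ H, N.lt x y → f x y = c

/-- `ADS`: every infinite linear order has an infinite ascending or descending sequence -/
def ADS : Prop :=
  ∀ D ∈ N.Sets, ∀ R : N.M → N.M → Prop, RelIn N R → IsLinearOrd N D R → ¬ IsFin N D →
    ∃ f : N.M → N.M, FunIn N f ∧ (∀ i, f i ∈ D) ∧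
      ((∀ i j, N.lt i j → R (f i) (f j) ∧ f i ≠ f j) ∨
        (∀ i j, N.lt i j → R (f j) (f i) ∧ f i ≠ f j))

end Pool.Agent.T9h90.SP.Stmt
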