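import Pool.Agent.T9h90.SP.Asm
import Pool.Agent.T9h90.SP.Stmt
import Pool.Agent.T9h32.SP.Ad
import Pool.Agent.T9h89.SP.Ex4

set_option autoImplicit false

/-! The final theorem in the form of `Stmt`. -/

namespace Pool.Agent.T9h90.SP

open Pool.Agent.Helper617.RM

universe u

theorem hAD : S_AD.{u} :=
  Pool.Agent.T9h32.SP.ad Pool.Agent.T9h73.SP.cp hNC Pool.Agent.T9h82.SP.cs Pool.Agent.T9h32.SP.sq hTR

variable {N : L2Structure.{u}} [IsModelRCA0 N]

theorem rtp_congr {p q : Sep} (h1 : Same p q) (h : Stmt.RTp N p) : RTp N q := by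
  obtain ⟨hs, hv⟩ := h1
  intro f hf
  obtain ⟨H, hH, hu, hn⟩ := h f hf
  refine ⟨H, hH, hu, fun ⟨x, hx1, hx2⟩ => hn ⟨x, fun i hi => hx1 i (hs ▸ hi), fun i j hij hj => ?_⟩⟩
  obtain ⟨h1, h2⟩ := hx2 i j hij (hs ▸ hj)
  refine ⟨h1, ?_⟩
  rw [h2, hv i (hij.trans hj), hv j hj]

theorem same_refl (p : Sep) : Same p p := ⟨rfl, fun _ _ => rfl⟩

theorem stmt_ads {p : Sep} (h : Stmt.RTp N p) : Stmt.ADS N := hAD N p (rtp_congr (same_refl p) h)

theorem stmt_rt {p q : Sep} (h : Stmt.RTp N p) (hs : Same p q) {c : Bool} (hc : Good c q) :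
    Stmt.RT22 N := main_class hAD N c q hc (rtp_congr hs h)

theorem dec_eq : ∀ n, dec n = Pool.Agent.T9h89.SP.dec n
  | 0 => rfl
  | n + 1 => by
    change Sep.node false .one (dec n) = Sep.node false .one (Pool.Agent.T9h89.SP.dec n)
    rw [dec_eq n]

theorem good_lay (m : ℕ) : ∀ l : List ℕ, Good true (lay m l)
  | [] => by
    change Good true (dec m)
    rw [dec_eq]
    exact Pool.Agent.T9h89.SP.good_dec m
  | n :: l => by
    change Good true (.node true (dec n) (lay m l))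
    rw [dec_eq]
    exact Good.same _ _ (Pool.Agent.T9h89.SP.spine_dec n) (good_lay m l)

end Pool.Agent.T9h90.SP
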