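import Mathlib

set_option autoImplicit false

/-! Separable permutations as trees of direct and skew sums, and two classes of them. -/

namespace Pool.Agent.T9h90.SP

/-- separable permutations: built from the one-element permutation by direct sums
(`node true`) and skew sums (`node false`) -/
inductive Sep
  | one : Sep
  | node (c : Bool) (a b : Sep) : Sep

/-- the number of letters -/
def Sep.size : Sep → ℕ
  | .one => 1
  | .node _ a b => a.size + b.size

/-- the one-line notation of the permutation of `0, ..., size - 1` -/
def Sep.val : Sep → ℕ → ℕ
  | .one, _ => 0
  | .node true a b, i => if i < a.size then a.val i else a.size + b.val (i - a.size)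
  | .node false a b, i => if i < a.size then b.size + a.val i else b.val (i - a.size)

/-- `q` gives the same permutation as `p` -/
def Same (p q : Sep) : Prop := q.size = p.size ∧ ∀ i, i < p.size → q.val i = p.val i

/-- the permutations `1 (+)_c (1 (+)_c' (...))`, any colours: every letter is below all later
ones or above all later ones -/
inductive Spine : Sep → Prop
  | one : Spine .one
  | node (c : Bool) (a : Sep) (h : Spine a) : Spine (.node c .one a)

/-- the class `Good c`: closed under `a (+)_c v` with `a` in `Spine` and under `1 (+)_(!c) v` -/
inductive Good (c : Bool) : Sep → Prop
  | one : Good c .one
  | same (a v : Sep) (ha : Spine a) (hv : Good c v) : Good c (.node c a v)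
  | opp (v : Sep) (hv : Good c v) : Good c (.node (!c) .one v)

/-- the decreasing permutation of length `n + 1` -/
def dec : ℕ → Sep
  | 0 => .one
  | n + 1 => .node false .one (dec n)

/-- layered permutations: the direct sum of the decreasing permutations of the lengths `n + 1`,
`n` in the list, and of length `m + 1` -/
def lay (m : ℕ) : List ℕ → Sep
  | [] => dec m
  | n :: l => .node true (dec n) (lay m l)

end Pool.Agent.T9h90.SP
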