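import Pool.Agent.Helper617.RM.SadsBounding
import Pool.Agent.H645R2.R.Tac
import Pool.Agent.T9h90.SP.Perm

set_option autoImplicit false

/-! Separable permutations, `RT^2_2(p)`, `RT^2_2` and `ADS` in a model of `RCA_0`. -/

namespace Pool.Agent.T9h90.SP

open Pool.Agent.Helper617.RM

universe u

/-- `x 0 < x 1 < ...` are elements of `H` which realise the pattern of the permutation `p`:
the pair `i < j` has colour 1 iff `p i < p j` -/
def Copy {M : Type u} [LT M] (f : M → M → Bool) (H : Set M) (p : Sep) (x : ℕ → M) : Prop :=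
  (∀ i, i < p.size → x i ∈ H) ∧
    ∀ i j, i < j → j < p.size → x i < x j ∧ f (x i) (x j) = decide (p.val i < p.val j)

section model

variable (N : L2Structure.{u}) [IsModelRCA0 N]

/-- the colouring exists in the model -/
def ColIn (f : N.M → N.M → Bool) : Prop := RelIn N (fun x y => f x y = true)

/-- `RT^2_2(p)` -/
def RTp (p : Sep) : Prop := ∀ f : N.M → N.M → Bool, ColIn N f →
  ∃ H ∈ N.Sets, ¬ IsFin N H ∧ ¬ ∃ x : ℕ → N.M, Copy f H p x

/-- `RT^2_2` -/
def RT22 : Prop := ∀ f : N.M → N.M → Bool, ColIn N f →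
  ∃ H ∈ N.Sets, ¬ IsFin N H ∧ ∃ c, ∀ x ∈ H, ∀ y ∈ H, x < y → f x y = c

/-- `ADS`: every infinite linear order has an infinite ascending or descending sequence -/
def ADS : Prop :=
  ∀ D ∈ N.Sets, ∀ R : N.M → N.M → Prop, RelIn N R → IsLinearOrd N D R → ¬ IsFin N D →
    ∃ f : N.M → N.M, FunIn N f ∧ (∀ i, f i ∈ D) ∧
      ((∀ i j, i < j → R (f i) (f j) ∧ f i ≠ f j) ∨ (∀ i j, i < j → R (f j) (f i) ∧ f i ≠ f j))

end model

/-- swapping the two kinds of sums -/
def Sep.dual : Sep → Sep
  | .one => .one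
  | .node c a b => .node (!c) a.dual b.dual

/-- inflation: every letter of `b` is replaced by a copy of `q` -/
def Sep.infl : Sep → Sep → Sep
  | .one, q => q
  | .node c a b, q => .node c (a.infl q) (b.infl q)

/-- unbounded -/
def Unb {M : Type u} [LT M] (H : Set M) : Prop := ∀ b, ∃ y ∈ H, b < y

/-- the common later neighbours in colour `c` of the first `n` terms of `x` -/
def Nc {M : Type u} [LT M] (f : M → M → Bool) (c : Bool) (H : Set M) (n : ℕ) (x : ℕ → M) :
    Set M := {w | w ∈ H ∧ ∀ i, i < n → x i < w ∧ f (x i) w = c}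

end Pool.Agent.T9h90.SP
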