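import Pool.Agent.T9h90.SP.Spec

set_option autoImplicit false

/-! The final assembly. -/

namespace Pool.Agent.T9h90.SP

open Pool.Agent.Helper617.RM

universe u

section fin

variable {N : L2Structure.{u}} [IsModelRCA0 N]

theorem unb_of {H : Set N.M} (h : ¬ IsFin N H) : Unb H := by
  intro b
  by_contra hcon
  push Not at hcon
  exact h ⟨b + 1, fun y hy => lt_add_one_iff'.2 (hcon y hy)⟩

theorem not_fin {H : Set N.M} (h : Unb H) : ¬ IsFin N H := by
  rintro ⟨b, hb⟩
  obtain ⟨y, hy, hby⟩ := h b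
  exact absurd (hb y hy) (not_lt.2 hby.le)

theorem univ_mem : (Set.univ : Set N.M) ∈ N.Sets :=
  comp_D0 (P := fun _ => True) D0.true

theorem univ_unb : Unb (Set.univ : Set N.M) := fun b => ⟨b + 1, trivial, lt_add_one_iff'.2 le_rfl⟩

theorem copy_one {f : N.M → N.M → Bool} {H : Set N.M} {x : N.M} (hx : x ∈ H) :
    Copy f H .one (fun _ => x) := by
  refine ⟨fun _ _ => hx, fun i j hij hj => ?_⟩
  simp only [Sep.size] at hj
  omega

/-- for a colouring without homogeneous sets the one-point permutation is always extendible -/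
theorem str_one (hm : S_HM.{u}) {f : N.M → N.M → Bool} (hf : DF N f) (hB : B2 N) (hb : Bad N f)
    (H : Set N.M) (c : Bool) : Str f H c .one := by
  intro H' hH' _ hu
  by_contra hcon
  push Not at hcon
  have key : ∀ x ∈ H', ∃ b, ∀ w ∈ H', b ≤ w → f x w = !c := by
    intro x hx
    have h1 := hcon (fun _ => x) (copy_one hx)
    simp only [Unb, not_forall, not_exists, not_and, not_lt] at h1
    obtain ⟨b, hb1⟩ := h1
    refine ⟨max b x + 1, fun w hw hbw => ?_⟩
    have h2 : max b x < w := lt_of_lt_of_le (lt_add_one_iff'.2 le_rfl) hbw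
    by_contra hne
    have h3 : f x w = c := by
      cases h : f x w <;> cases c <;> simp_all
    have h4 := hb1 w ⟨hw, fun i _ => ⟨lt_of_le_of_lt (le_max_right _ _) h2, h3⟩⟩
    exact absurd (lt_of_le_of_lt (le_max_left _ _) h2) (not_lt.2 h4)
  obtain ⟨G, hG, _, hGu, hG2⟩ := hm N f hf hB (!c) H' hH' hu key
  exact hb G hG hGu _ hG2

theorem re_one {f : N.M → N.M → Bool} (H : Set N.M) : Re f H .one := by
  intro H' _ _ hu
  obtain ⟨y, hy, _⟩ := hu 0
  exact ⟨_, copy_one hy⟩

theorem re_good (hm : S_HM.{u}) (cl : S_CL.{u}) {f : N.M → N.M → Bool} (hf : DF N f) (hB : B2 N)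
    (hb : Bad N f) (H : Set N.M) (c : Bool) (hs : ∀ a, Spine a → Str f H c a) {p : Sep}
    (hp : Good c p) : Re f H p := by
  induction hp with
  | one => exact re_one H
  | same a v ha _ ih => exact ((cl N f hf H c a v) (hs a ha)).1 ih
  | opp v _ ih => exact ((cl N f hf H (!c) .one v) (str_one hm hf hB hb H _)).1 ih

theorem b2_of (h : ADS N) : B2 N := by
  have hS : PrincipleSADS N := by
    intro D hD R hR hl hi _
    exact h D hD R hR hl hi
  intro C hC a ha
  exact sads_bounding hS hC a ha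

end fin

theorem fn (hdu : S_DU.{u}) (hhm : S_HM.{u}) (hcl : S_CL.{u}) (htr : S_TR.{u}) (had : S_AD.{u})
    (hdi : S_DI.{u}) (N : L2Structure.{u}) [IsModelRCA0 N] (c : Bool) (p : Sep)
    (hg : Good c p) (hp : RTp N p) : RT22 N := by
  have hB : B2 N := b2_of (had N p hp)
  by_contra hcon
  unfold RT22 at hcon
  push Not at hcon
  obtain ⟨f, hfc, hf⟩ := hcon
  have hD : DF N f := D0.of_codeRel hfc
  have hb : Bad N f := by
    intro H hH hu c' h
    obtain ⟨x, hx, y, hy, hxy, hne⟩ := hf H hH (not_fin hu) c'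
    exact hne (h x hx y hy hxy)
  have hall : ∀ e : Bool, ∃ q, Good e q ∧ RTp N q := by
    intro e
    by_cases hec : e = c
    · exact ⟨p, hec ▸ hg, hp⟩
    · have : e = !c := by cases e <;> cases c <;> simp_all
      exact ⟨p.dual, this ▸ (hdu N p).2 c hg, (hdu N p).1 hp⟩
  rcases hdi N f hD hB hb with h | ⟨H0, hH0, hu0, h⟩
  · obtain ⟨q, hq, hr⟩ := hall true
    obtain ⟨H', hH', _, hu, hn⟩ := htr N q hr f hD _ univ_mem univ_unb
    exact hn (re_good hhm hcl hD hB hb Set.univ true h hq H' hH' (Set.subset_univ _) hu)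
  · obtain ⟨q, hq, hr⟩ := hall false
    obtain ⟨H', hH', hs, hu, hn⟩ := htr N q hr f hD H0 hH0 hu0
    exact hn (re_good hhm hcl hD hB hb H0 false h hq H' hH' hs hu)

end Pool.Agent.T9h90.SP
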