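import Pool.Agent.T9h90.SP.Defs

set_option autoImplicit false

/-! The pieces. Everywhere: `N` a model of `RCA_0`; `N.M` is a linear order (library instance). -/

namespace Pool.Agent.T9h90.SP

open Pool.Agent.Helper617.RM

universe u

/-- `f` is a colouring of the model (Delta_0 with set parameters) -/
def DF (N : L2Structure.{u}) [IsModelRCA0 N] (f : N.M → N.M → Bool) : Prop :=
  D0 (fun v : Ctx N => f (v 0) (v 1) = true)

/-- finite union principle (B Sigma_2) -/
def B2 (N : L2Structure.{u}) [IsModelRCA0 N] : Prop :=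
  ∀ C : N.M → N.M → Prop, D0 (fun v => C (v 0) (v 1)) → ∀ a : N.M,
    (∀ j, j < a → ∃ b, ∀ t, b ≤ t → ¬ C j t) → ∃ b, ∀ t, b ≤ t → ∀ j, j < a → ¬ C j t

/-- no unbounded homogeneous set in the model -/
def Bad (N : L2Structure.{u}) [IsModelRCA0 N] (f : N.M → N.M → Bool) : Prop :=
  ∀ H ∈ N.Sets, Unb H → ∀ c, ¬ ∀ x ∈ H, ∀ y ∈ H, x < y → f x y = c

/-- every unbounded subset of `H` in the model contains a copy of `p` -/
def Re {N : L2Structure.{u}} [IsModelRCA0 N] (f : N.M → N.M → Bool) (H : Set N.M) (p : Sep) :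
    Prop := ∀ H' ∈ N.Sets, H' ⊆ H → Unb H' → ∃ x, Copy f H' p x

/-- every unbounded subset of `H` in the model contains a copy of `p` with unboundedly many
common later neighbours of colour `c` -/
def Str {N : L2Structure.{u}} [IsModelRCA0 N] (f : N.M → N.M → Bool) (H : Set N.M) (c : Bool)
    (p : Sep) : Prop :=
  ∀ H' ∈ N.Sets, H' ⊆ H → Unb H' → ∃ x, Copy f H' p x ∧ Unb (Nc f c H' p.size x)

/-- no copy of `p` in `H` has unboundedly many common later neighbours of colour `c` -/
def No {N : L2Structure.{u}} [IsModelRCA0 N] (f : N.M → N.M → Bool) (H : Set N.M) (c : Bool)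
    (p : Sep) : Prop := ∀ x, Copy f H p x → ¬ Unb (Nc f c H p.size x)

/-- (CP) sums of copies (pure combinatorics; first prove `val p i < size p` for `i < size p`):
cross pairs of `node c a b` have `decide (val i < val j) = c` -/
def S_CP : Prop := ∀ (M : Type u) [LinearOrder M] (f : M → M → Bool) (H : Set M) (c : Bool)
  (a b : Sep),
  (∀ x y, Copy f H a x → Copy f (Nc f c H a.size x) b y →
    Copy f H (.node c a b) (fun i => if i < a.size then x i else y (i - a.size))) ∧
  (∀ z, Copy f H (.node c a b) z →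
    Copy f H a z ∧ Copy f (Nc f c H a.size z) b (fun i => z (a.size + i)))

/-- (DU) duality: `Copy (fun x y => !f x y) H p.dual x ↔ Copy f H p x`, so `RTp` is self-dual;
`Spine`, `Good` are mapped to themselves with the other colour -/
def S_DU : Prop := ∀ (N : L2Structure.{u}) [IsModelRCA0 N] (p : Sep),
  (RTp N p → RTp N p.dual) ∧ (∀ c, Good c p → Good (!c) p.dual)

/-- (NC) the sets `Nc` are in the model -/
def S_NC : Prop := ∀ (N : L2Structure.{u}) [IsModelRCA0 N] (f : N.M → N.M → Bool), DF N f →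
  ∀ (c : Bool) (H : Set N.M), H ∈ N.Sets → ∀ n x, Nc f c H n x ∈ N.Sets

/-- (SQ) dependent choice for Sigma_1 relations. Take the Delta_0 matrices, search for the first
pair (new point, witnesses), `exists_recursion` on codes; or recursion with a total function:
G(u) = least code u' such that u' = pr y w, w witnesses K y and R (fst u) y.
Form: `theorem sq : S_SQ.{u}` -/
def S_SQ : Prop := ∀ (N : L2Structure.{u}) [IsModelRCA0 N] (K : N.M → Prop)
  (R : N.M → N.M → Prop), S1 (fun v => K (v 0)) → S1 (fun v => R (v 0) (v 1)) → (∃ a, K a) →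
  (∀ x, K x → ∃ y, K y ∧ R x y) →
  ∃ g : N.M → N.M, D0 (fun v => v 1 = g (v 0)) ∧ ∀ n, K (g n) ∧ R (g n) (g (n + 1))

/-- (RG) the range of an increasing function of the model, also on a set of arguments.
Form: `theorem rg : S_RG.{u}` -/
def S_RG : Prop := ∀ (N : L2Structure.{u}) [IsModelRCA0 N] (g : N.M → N.M),
  D0 (fun v => v 1 = g (v 0)) → (∀ n, g n < g (n + 1)) →
  (∀ m n, m < n → g m < g n) ∧ (∀ n, n ≤ g n) ∧
    ∀ I ∈ N.Sets, {y | ∃ i ∈ I, y = g i} ∈ N.Sets ∧ (Unb I → Unb {y | ∃ i ∈ I, y = g i})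

/-- (SB) an unbounded Sigma_1 set contains an unbounded set of the model.
Form: `theorem sb : S_SQ.{u} → S_RG.{u} → S_SB.{u}` -/
def S_SB : Prop := ∀ (N : L2Structure.{u}) [IsModelRCA0 N]
  (K : N.M → Prop), S1 (fun v => K (v 0)) → Unb {x | K x} → ∃ H ∈ N.Sets, Unb H ∧ ∀ x ∈ H, K x

/-- (HM) thinning: if every `x ∈ H` has colour `c` to almost all of `H` there is an unbounded
homogeneous subset. Sequence: `x_(n+1)` = some `y ∈ H`, `y > x_n` with `f z y = c` for ALL
`z ∈ H`, `z ≤ x_n` (exists by `B2` with `C j t : j ∈ H ∧ t ∈ H ∧ f j t ≠ c`).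
Form: `theorem hm : S_SQ.{u} → S_RG.{u} → S_HM.{u}` -/
def S_HM : Prop := ∀ (N : L2Structure.{u}) [IsModelRCA0 N]
  (f : N.M → N.M → Bool), DF N f → B2 N → ∀ (c : Bool) (H : Set N.M), H ∈ N.Sets → Unb H →
  (∀ x ∈ H, ∃ b, ∀ w ∈ H, b ≤ w → f x w = c) →
  ∃ H' ∈ N.Sets, H' ⊆ H ∧ Unb H' ∧ ∀ x ∈ H', ∀ y ∈ H', x < y → f x y = c

/-- (TR) `RT^2_2(p)` inside an unbounded set (pull back along an increasing `e : N → H`, from SQ
with `R x y : x < y`; image of the solution by RG).
Form: `theorem tr : S_SQ.{u} → S_RG.{u} → S_TR.{u}` -/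
def S_TR : Prop := ∀ (N : L2Structure.{u}) [IsModelRCA0 N] (p : Sep),
  RTp N p → ∀ f : N.M → N.M → Bool, DF N f → ∀ H ∈ N.Sets, Unb H →
  ∃ H' ∈ N.Sets, H' ⊆ H ∧ Unb H' ∧ ¬ ∃ x, Copy f H' p x

/-- (CS) existence of copies is Sigma_1 (the copy consists of finitely many points; first prove
by induction on `n` that `∃ x : ℕ → N.M, P (fun k => if k < n then x k else v (k - n))` is S1
for D0 `P`). Form: `theorem cs : S_CS.{u}` -/
def S_CS : Prop := ∀ (N : L2Structure.{u}) [IsModelRCA0 N] (f : N.M → N.M → Bool), DF N f →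
  ∀ (p : Sep) (Q E : N.M → N.M → Prop), D0 (fun v => Q (v 0) (v 1)) →
    D0 (fun v => E (v 0) (v 1)) →
    S1 (fun v : Ctx N => ∃ x, Copy f {y | Q (v 0) y} p x) ∧
    S1 (fun v : Ctx N => ∃ x, Copy f {y | Q (v 0) y} p x ∧
      (∃ i, i < p.size ∧ x i = v 0) ∧ ∀ j, j < p.size → E (v 0) (x j))

/-- (AD) `RT^2_2(p) → ADS`. Let `(D, R)` be a linear order without monotone sequences,
`f x y = decide (R x y)`. CLAIM for all `p` and all unbounded `H ⊆ D` of the model: `H` contains
a copy of `p` (then TR with `H := D` gives a contradiction). Induction on `p`. `node true a b`: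
suppose `H` has no copy. For a copy `x` of `a` in `H` the set `Nc f true H a.size x` has no copy
of `b` (CP), so by the claim for `b` it is bounded; if `u` is the `R`-largest of the `x i` then
`{y ∈ H | R u y}` is bounded, so `{y ∈ H | y > all x i, R y u, y ≠ u}` is unbounded, and by the
claim for `a` it contains a copy of `a`. Let `K u` : `u` is the `R`-largest point of some copy of
`a` in `H` (S1 by CS with `Q _ y := y ∈ H`, `E u y := R y u`). So `K u → ∃ u', K u' ∧ R u' u ∧
u' ≠ u`; SQ gives an infinite `R`-descending sequence. `node false a b`: the same upside down.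
Form: `theorem ad : S_CP.{u} → S_NC.{u} → S_CS.{u} → S_SQ.{u} → S_TR.{u} → S_AD.{u}` -/
def S_AD : Prop := ∀ (N : L2Structure.{u}) [IsModelRCA0 N] (p : Sep), RTp N p → ADS N

/-- (TV) transversals of an inflation, with unboundedly many common neighbours. Induction on `b`;
`b = one` : `u = fun _ => z i`; `b = node d b1 b2`: split `z` by CP, first `b1`, then `b2` inside
`Nc f d H (b1.infl q).size z` with `W := {w ∈ W | ∀ i < b1.size, f (u1 i) w = c}`.
Form: `theorem tv : S_CP.{u} → S_TV.{u}` -/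
def S_TV : Prop := ∀ (M : Type u) [LinearOrder M] (f : M → M → Bool) (H : Set M) (c : Bool)
  (b q : Sep) (z : ℕ → M) (W : Set M), Unb W → Copy f H (b.infl q) z →
  (∀ x, Copy f H q x → ∀ W' : Set M, W' ⊆ W → Unb W' →
    ∃ i, i < q.size ∧ Unb {w | w ∈ W' ∧ f (x i) w = c}) →
  ∃ u : ℕ → M, Copy f H b u ∧ (∀ i, i < b.size → ∃ j, j < (b.infl q).size ∧ u i = z j) ∧
    Unb {w | w ∈ W ∧ ∀ i, i < b.size → f (u i) w = c}

/-- (CL) closure properties. Form: `theorem cl : S_CP.{u} → S_NC.{u} → S_CL.{u}` -/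
def S_CL : Prop := ∀ (N : L2Structure.{u}) [IsModelRCA0 N] (f : N.M → N.M → Bool), DF N f →
  ∀ (H : Set N.M) (c : Bool) (a b : Sep), Str f H c a →
    (Re f H b → Re f H (.node c a b)) ∧ (Str f H c b → Str f H c (.node c a b))

/-- (LT) the main step. `Y x0 : x0 ∈ H` and `Nc f (!c) H 1 (fun _ => x0)` contains a copy `z` of
`b.infl q`. (i) `Y` is unbounded: for a bound `B` let `H_B = {y ∈ H | B < y}`; some `x0 ∈ H_B` has
`Nc f (!c) H_B 1 x0` unbounded (otherwise HM with colour `c` contradicts `Bad`), and `Re` gives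
`z`. (ii) if `Y x0` then `f x0 w = !c` for almost all `w ∈ H`: otherwise `W = {w ∈ H | f x0 w = c}`
is unbounded; for a copy `x` of `q` in `Nc f (!c) H 1 x0`, `x0` followed by `x` is a copy of
`node (!c) one q` (CP), so by `No` almost all `w ∈ W` have `f (x i) w = !c` for some `i`
(pigeonhole, `q.size` is standard); TV with colour `!c` gives a copy `u` of `b` in `H` with
unboundedly many common `!c`-neighbours, contradicting `No f H (!c) b`. (iii) `Y` is Sigma_1 (CS);
SB and HM with colour `!c` contradict `Bad`.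
Form: `theorem lt : S_CP.{u} → S_NC.{u} → S_CS.{u} → S_TV.{u} → S_SB.{u} → S_HM.{u} → S_LT.{u}` -/
def S_LT : Prop := ∀ (N : L2Structure.{u}) [IsModelRCA0 N] (f : N.M → N.M → Bool), DF N f →
  B2 N → Bad N f → ∀ (c : Bool) (H : Set N.M), H ∈ N.Sets → Unb H → ∀ b q : Sep,
  No f H (!c) b → No f H c (.node (!c) .one q) → Re f H (b.infl q) → False

/-- (DI) dichotomy. Otherwise there are `H2` and spines `a0, b0` with `No f H2 true a0`,
`No f H2 false b0` (`No` passes to smaller sets). Choose `H3 ⊆ H2`, a colour `c` and a spine `a`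
with `No f H3 c a` and `a.size` minimal. `a = one`: HM with colour `!c` contradicts `Bad`.
Otherwise `a = node d one a'`, and `Str f H3 true a'`, `Str f H3 false a'`, `Str f H3 e one` by
minimality. `d = c`: CL gives `Str f H3 c a`, contradiction. `d = !c`: let `b` be the one of
`a0, b0` with `No f H3 (!c) b`; `Re f H3 (b.infl a')` by induction on the spine `b` (CL);
LT with `q = a'`.
Form: `theorem di : S_CL.{u} → S_HM.{u} → S_LT.{u} → S_DI.{u}` -/
def S_DI : Prop := ∀ (N : L2Structure.{u}) [IsModelRCA0 N] (f : N.M → N.M → Bool), DF N f →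
  B2 N → Bad N f →
  (∀ a, Spine a → Str f Set.univ true a) ∨
    ∃ H0 ∈ N.Sets, Unb H0 ∧ ∀ a, Spine a → Str f H0 false a

end Pool.Agent.T9h90.SP
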